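import Pool.Agent.X286.Ts.Cnt

/-!
Triangle supersaturation for `K_{3,t}` fails: tensor powers of a graph on `{0,1}^4`.
-/

namespace Pool.Agent.Results.MP_14d42b_co.TensorPowerCounterexample

open Filter Topology SimpleGraph

/-- `k(G)`: the number of triangles of `G` divided by the square of the number of vertices. -/
noncomputable def triDens {V : Type} [Fintype V] (G : SimpleGraph V) : ℝ :=
  (G.copyCount (⊤ : SimpleGraph (Fin 3)) : ℝ) / (Fintype.card V : ℝ)^2

/-- The assertion of Q1 for one `t`: there are a constant `k₀` and a function `ε` tending to `0`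
such that every `n`-vertex graph `G` (`n ≥ 1`) with `k n²` triangles, `k ≥ k₀`, has at least
`k^t n^(3 - ε n)` copies of `K_{3,t}`. -/
def Supersaturated (t : ℕ) : Prop :=
  ∃ (k₀ : ℝ) (ε : ℕ → ℝ), Tendsto ε atTop (𝓝 0) ∧
    ∀ (V : Type) [Fintype V] (G : SimpleGraph V), 0 < Fintype.card V → k₀ ≤ triDens G →
      (triDens G)^t * (Fintype.card V : ℝ)^((3:ℝ) - ε (Fintype.card V)) ≤
        (G.copyCount (completeBipartiteGraph (Fin 3) (Fin t)) : ℝ)

open Pool.Agent.X286.Ts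

theorem base_gt : (732176:ℝ) < 753571 * (16:ℝ)^(-(1/100) : ℝ) := by
  have hb0 : (0:ℝ) < (16:ℝ)^(-(1/100) : ℝ) := Real.rpow_pos_of_pos (by norm_num) _
  have hb : ((16:ℝ)^(-(1/100) : ℝ))^100 = 1/16 := by
    rw [← Real.rpow_natCast, ← Real.rpow_mul (by norm_num)]
    have : (-(1/100) : ℝ) * ((100:ℕ) : ℝ) = -1 := by norm_num
    rw [this, Real.rpow_neg_one]
    norm_num
  have h1 : (732176/753571 : ℝ) < (16:ℝ)^(-(1/100) : ℝ) := by
    refine lt_of_pow_lt_pow_left₀ 100 hb0.le ?_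
    rw [hb]
    norm_num
  rw [div_lt_iff₀ (by norm_num)] at h1
  linarith

theorem strong (k₀ : ℝ) : ∀ᶠ m : ℕ in atTop, k₀ ≤ triDens (GG m) ∧
    ((GG m).copyCount (completeBipartiteGraph (Fin 3) (Fin 3)) : ℝ) <
      (triDens (GG m))^3 * ((16:ℝ)^m)^((3:ℝ) - 1/100) := by
  set b : ℝ := (16:ℝ)^(-(1/100) : ℝ) with hb
  have hb0 : 0 < b := Real.rpow_pos_of_pos (by norm_num) _
  have hbase := base_gt
  rw [← hb] at hbase
  have hρ : 1 < 753571 * b / 732176 := by
    rw [lt_div_iff₀ (by norm_num)]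
    linarith
  have t1 : Tendsto (fun m : ℕ => (753571 * b / 732176)^m) atTop atTop :=
    tendsto_pow_atTop_atTop_of_one_lt hρ
  have t2 : Tendsto (fun m : ℕ => ((91:ℝ)/16)^m) atTop atTop :=
    tendsto_pow_atTop_atTop_of_one_lt (by norm_num)
  filter_upwards [t1.eventually_gt_atTop 157464, t2.eventually_ge_atTop (54 * k₀),
    t2.eventually_ge_atTop 6] with m h1 h2 h3
  have e91 : (1456:ℝ)^m = ((91:ℝ)/16)^m * 256^m := by
    rw [← mul_pow]; norm_num
  have hT : ((91:ℝ)/16)^m * 256^m ≤ 54 * ((GG m).copyCount (⊤ : SimpleGraph (Fin 3)) : ℝ) := by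
    have hn : (1456:ℝ)^m ≤ 27 * ((GG m).copyCount (⊤ : SimpleGraph (Fin 3)) : ℝ) + 3 * 256^m := by
      exact_mod_cast numTri m
    rw [e91] at hn
    have : 6 * (256:ℝ)^m ≤ ((91:ℝ)/16)^m * 256^m :=
      mul_le_mul_of_nonneg_right h3 (by positivity)
    linarith
  have hcard : (Fintype.card (Fin m → Fin 16) : ℝ) = 16^m := by
    simp
  have hk : ((91:ℝ)/16)^m / 54 ≤ triDens (GG m) := by
    unfold triDens
    rw [hcard, div_le_div_iff₀ (by norm_num) (by positivity), ← pow_mul, mul_comm m 2, pow_mul]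
    have : ((16:ℝ)^2)^m = 256^m := by norm_num
    rw [this]
    linarith
  refine ⟨?_, ?_⟩
  · refine le_trans ?_ hk
    rw [le_div_iff₀ (by norm_num)]
    linarith
  · have hN : ((GG m).copyCount (completeBipartiteGraph (Fin 3) (Fin 3)) : ℝ) ≤ 732176^m := by
      exact_mod_cast numK33 m
    have hx : ((16:ℝ)^m)^((3:ℝ) - 1/100) = ((16:ℝ)^m)^3 * b^m := by
      have e1 : (3:ℝ) - 1/100 = ((3:ℕ) : ℝ) + (-(1/100)) := by norm_num
      rw [e1, Real.rpow_add (by positivity), Real.rpow_natCast]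
      congr 1
      rw [hb, ← Real.rpow_natCast, ← Real.rpow_natCast, ← Real.rpow_mul (by norm_num),
        ← Real.rpow_mul (by norm_num), mul_comm]
    have h4 : (((91:ℝ)/16)^m / 54)^3 ≤ (triDens (GG m))^3 :=
      pow_le_pow_left₀ (by positivity) hk 3
    have h5 : (((91:ℝ)/16)^m / 54)^3 * (((16:ℝ)^m)^3 * b^m) = (753571 * b)^m / 157464 := by
      have : (((91:ℝ)/16)^m)^3 * ((16:ℝ)^m)^3 = 753571^m := by
        rw [← mul_pow, ← mul_pow, ← pow_mul, mul_comm m 3, pow_mul]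
        norm_num
      rw [div_pow, mul_pow 753571 b, ← this]
      ring
    have h6 : (732176:ℝ)^m < (753571 * b)^m / 157464 := by
      rw [div_pow, lt_div_iff₀ (by positivity)] at h1
      rw [lt_div_iff₀ (by norm_num)]
      linarith
    rw [hx]
    calc ((GG m).copyCount (completeBipartiteGraph (Fin 3) (Fin 3)) : ℝ) ≤ 732176^m := hN
      _ < (753571 * b)^m / 157464 := h6
      _ = (((91:ℝ)/16)^m / 54)^3 * (((16:ℝ)^m)^3 * b^m) := h5.symm
      _ ≤ _ := mul_le_mul_of_nonneg_right h4 (by positivity)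

/-- **The supersaturation statement of Q1 is false**, already for `t = 3`, with a polynomial
saving: `k^3 n^(3-1/100)` instead of `k^3 n^(3-o(1))`. -/
theorem result :
    (∀ k₀ : ℝ, ∀ᶠ m : ℕ in atTop, ∃ G : SimpleGraph (Fin m → Fin 16), k₀ ≤ triDens G ∧
      (G.copyCount (completeBipartiteGraph (Fin 3) (Fin 3)) : ℝ) <
        (triDens G)^3 * ((16:ℝ)^m)^((3:ℝ) - 1/100)) ∧
    ¬ ∀ t : ℕ, 3 ≤ t → Supersaturated t := by
  refine ⟨fun k₀ => (strong k₀).mono fun m hm => ⟨GG m, hm⟩, fun h => ?_⟩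
  obtain ⟨k₀, ε, hε, hG⟩ := h 3 le_rfl
  have t1 : Tendsto (fun m : ℕ => 16^m) atTop (atTop : Filter ℕ) :=
    tendsto_pow_atTop_atTop_of_one_lt (by norm_num)
  have t2 : ∀ᶠ m : ℕ in atTop, ε (16^m) ≤ 1/100 :=
    (hε.comp t1).eventually (ge_mem_nhds (by norm_num))
  obtain ⟨m, hm1, hm2⟩ := (t2.and (strong k₀)).exists
  have hc : Fintype.card (Fin m → Fin 16) = 16^m := by simp
  have h1 := hG (Fin m → Fin 16) (GG m) (by rw [hc]; positivity) hm2.1
  rw [hc] at h1
  push_cast at h1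
  have h2 := hm2.2
  have hk0 : 0 ≤ (triDens (GG m))^3 := by
    apply pow_nonneg
    unfold triDens
    positivity
  have h3 : ((16:ℝ)^m)^((3:ℝ) - 1/100) ≤ ((16:ℝ)^m)^((3:ℝ) - ε (16^m)) :=
    Real.rpow_le_rpow_of_exponent_le (one_le_pow₀ (by norm_num)) (by linarith)
  have h4 := mul_le_mul_of_nonneg_left h3 hk0
  linarith

end Pool.Agent.Results.MP_14d42b_co.TensorPowerCounterexample
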